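import Pool.Agent.N911.U10

/-!
# Unique factorisation and units of norm `-1` with small irrational part

Let `d > 1` be squarefree such that the ring of integers of `ℚ(√d)` is a unique factorisation
domain, and suppose that `T ^ 2 - d * U ^ 2 = -4` has a solution with `1 ≤ U ≤ 10000`. Then `d`
is one of 79 explicit numbers.
-/

namespace Pool.Agent.N911.Shelf.PellMinusFour

theorem result (d : ℕ) (hd : Squarefree d) (hd1 : 1 < d)
    (K : Type*) [Field K] [NumberField K] (hK : Module.finrank ℚ K = 2)
    (x : K) (hx : x ^ 2 = (d : K))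
    (hufd : UniqueFactorizationMonoid (NumberField.RingOfIntegers K))
    (T U : ℕ) (hU : 0 < U) (hle : U ≤ 10000) (h : T ^ 2 + 4 = d * U ^ 2) :
    d ∈ ({2, 5, 13, 17, 29, 37, 41, 53, 61, 73, 89, 97, 101, 109, 113, 137, 149, 157,
      173, 181, 197, 233, 269, 277, 293, 317, 349, 353, 373, 389, 397, 461, 509, 557, 613, 653,
      677, 701, 773, 797, 821, 853, 941, 997, 1013, 1061, 1109, 1181, 1277, 1493, 1613, 1637,
      1733, 1877, 1949, 1973, 1997, 2309, 2333, 2357, 2477, 2621, 2693, 2789, 2957, 3533, 3677,
      3797, 3989, 4133, 4157, 4253, 4373, 4517, 4973, 5309, 7013, 9173, 10853} : Finset ℕ) := by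
  have hcl : NumberField.classNumber K = 1 := by
    rw [NumberField.classNumber_eq_one_iff]
    exact IsPrincipalIdealRing.of_isDedekindDomain_of_uniqueFactorizationMonoid _
  have h := Pool.Agent.N911.pell_all hd hd1 hK hx hcl hU hle h
  rcases h with rfl | h
  · simp
  · unfold Pool.Agent.N911.List78 at h
    simp only [List.mem_cons, List.not_mem_nil, or_false] at h
    simp only [Finset.mem_insert, Finset.mem_singleton]
    exact Or.inr h

end Pool.Agent.N911.Shelf.PellMinusFour
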